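import Pool.Agent.TH482.HT.W14

/-!
# The strong Hanani–Tutte property fails on the orientable surface of genus 3

See `Pool/Agent/TH482/HT/Defs.lean` for the definitions of a drawing on an oriented surface.
The graph is a 14 x 12 grid with four further vertices `a, b, c, d`; the top end of column `i`
is joined to the `i`-th letter of the word `abcabcabcdabcd`.
-/

set_option autoImplicit false

namespace Pool.Agent.Results.MP_c359ba_co.GenusThree

open TH482.HT

/-- There is a connected graph `G` that has a drawing on the closed orientable surface of genus `3`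
in which any two independent edges cross an even number of times, while `G` has no embedding in
this surface. -/
theorem result : ∃ (V : Type) (_ : Fintype V) (G : SimpleGraph V), G.Connected ∧
    (∃ 𝒟 : Drawing G, 𝒟.OnSurface 3 ∧ 𝒟.IndepEven) ∧
    ¬ ∃ ℰ : Drawing G, ℰ.OnSurface 3 ∧ ℰ.IsEmbedding := by
  refine ⟨Vt 13 11 4, inferInstance, gridGraph 11 W14.w,
    gridGraph_connected W14.w W14.bcol W14.D.hb, ⟨tabDrawing W14.good, ?_, ?_⟩, ?_⟩
  · have h := tab_euler W14.good (by decide) (by decide)
    have h2 : ((W14.t.Vn : ℕ) : ℤ) - (W14.t.En : ℤ) + (W14.t.Fn : ℤ) = 2 - 2 * ((3 : ℕ) : ℤ) := by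
      decide
    rw [h2] at h
    exact h
  · exact tab_even W14.good W14.chk
  · rintro ⟨ℰ, h1, h2⟩
    exact no_embedding W14.D (M := 11) (g := 3) (by norm_num) (by norm_num) W14.el W14.final ℰ h2
      h1

end Pool.Agent.Results.MP_c359ba_co.GenusThree
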